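import Pool.Agent.Y499.HC.Ineq
import Pool.Agent.Y908.HC.Inv2
import Pool.Agent.L7h41.CS.Stm

/-! # Project CS, part CHAIN -/

set_option autoImplicit false
set_option maxHeartbeats 400000

open Real Set MeasureTheory Metric Filter Topology
open scoped ENNReal

namespace Pool.Agent.L7h17.CS

open Pool.Agent.Y499.HC Pool.Agent.Y499.HR

variable {d : ℕ} {M : ℝ → ℝ} {R : ℝ}

/-- the function as a measurable function on the line -/
noncomputable def MR (R : ℝ) (M : ℝ → ℝ) : ℝ → ℝ≥0∞ :=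
  (Ico (0 : ℝ) R).indicator fun s => ENNReal.ofReal (M s)

lemma measurable_MR (hM : ContinuousOn M (Ico 0 R)) : Measurable (MR R M) := by
  classical
  unfold MR
  have h1 : ContinuousOn (fun s => ENNReal.ofReal (M s)) (Ico 0 R) :=
    ENNReal.continuous_ofReal.comp_continuousOn hM
  rw [← Set.piecewise_eq_indicator]
  exact h1.measurable_piecewise continuousOn_const measurableSet_Ico

lemma M_cl_cont (hM : ContinuousOn M (Ico 0 R)) {A : ℝ} (hA : A ∈ Ico 0 R) :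
    Continuous (fun s => M (cl A s)) :=
  hM.comp_continuous (continuous_cl A) fun s => cl_mem' hA s

lemma one_alpha (hM : ContinuousOn M (Ico 0 R)) (h0 : ∀ s ∈ Ico 0 R, 0 ≤ M s)
    (hR : R ≤ π / 2) {α : ℝ} (hα : α ∈ Ioo 0 R)
    (key : 0 ≤ ∫ τ in (0 : ℝ)..π, 1 / C α τ ^ (d + 2) * (M (cl α (S α τ)) - C α τ ^ d)) :
    ∫⁻ τ in Ioo 0 π, ENNReal.ofReal (1 / C α τ ^ (d + 2)) * ENNReal.ofReal (Real.cos (S α τ) ^ d) ≤
      ∫⁻ τ in Ioo 0 π, ENNReal.ofReal (1 / C α τ ^ (d + 2)) * MR R M (S α τ) := by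
  have hαm : α ∈ Ico 0 R := ⟨hα.1.le, hα.2⟩
  have hα2 := mem_half hR hα
  have hCc := continuous_C α
  have hCp := C_pos hα2
  have hw : Continuous (fun τ => 1 / C α τ ^ (d + 2)) :=
    continuous_const.div (hCc.pow _) fun τ => (pow_pos (hCp τ) _).ne'
  have hmc : Continuous (fun τ => M (cl α (S α τ))) :=
    (M_cl_cont hM hαm).comp (continuous_S α)
  have hint : ∀ f : ℝ → ℝ, Continuous f → Integrable f (volume.restrict (Ioo 0 π)) :=
    fun f hf => (hf.integrableOn_Icc (a := 0) (b := π)).mono_set Ioo_subset_Icc_self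
  have c1 : Continuous (fun τ => 1 / C α τ ^ (d + 2) * C α τ ^ d) := hw.mul (hCc.pow _)
  have c2 : Continuous (fun τ => 1 / C α τ ^ (d + 2) * M (cl α (S α τ))) := hw.mul hmc
  have key2 : ∫ τ in Ioo 0 π, 1 / C α τ ^ (d + 2) * C α τ ^ d ≤
      ∫ τ in Ioo 0 π, 1 / C α τ ^ (d + 2) * M (cl α (S α τ)) := by
    rw [intervalIntegral.integral_of_le Real.pi_pos.le, integral_Ioc_eq_integral_Ioo] at key
    have e : ∫ τ in Ioo 0 π, 1 / C α τ ^ (d + 2) * (M (cl α (S α τ)) - C α τ ^ d) =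
        ∫ τ in Ioo 0 π, (1 / C α τ ^ (d + 2) * M (cl α (S α τ)) -
          1 / C α τ ^ (d + 2) * C α τ ^ d) :=
      integral_congr_ae (Filter.Eventually.of_forall fun τ => by
        show 1 / C α τ ^ (d + 2) * (M (cl α (S α τ)) - C α τ ^ d) = _
        ring)
    rw [e, integral_sub (hint _ c2) (hint _ c1)] at key
    linarith
  have e1 : ∫⁻ τ in Ioo 0 π, ENNReal.ofReal (1 / C α τ ^ (d + 2)) *
      ENNReal.ofReal (Real.cos (S α τ) ^ d) =
      ENNReal.ofReal (∫ τ in Ioo 0 π, 1 / C α τ ^ (d + 2) * C α τ ^ d) := by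
    rw [ofReal_integral_eq_lintegral_ofReal]
    · refine lintegral_congr fun τ => ?_
      have := hCp τ
      rw [cos_S, ← ENNReal.ofReal_mul (by positivity)]
    · exact hint _ c1
    · refine Filter.Eventually.of_forall fun τ => ?_
      have := hCp τ
      show 0 ≤ 1 / C α τ ^ (d + 2) * C α τ ^ d
      positivity
  have e2 : ∫⁻ τ in Ioo 0 π, ENNReal.ofReal (1 / C α τ ^ (d + 2)) * MR R M (S α τ) =
      ENNReal.ofReal (∫ τ in Ioo 0 π, 1 / C α τ ^ (d + 2) * M (cl α (S α τ))) := by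
    rw [ofReal_integral_eq_lintegral_ofReal]
    · refine setLIntegral_congr_fun measurableSet_Ioo fun τ hτ => ?_
      have h0 := hCp τ
      have h1 := S_mem hα2 ⟨hτ.1.le, hτ.2.le⟩
      have h2 : S α τ ∈ Ico 0 R := ⟨h1.1, h1.2.trans_lt hα.2⟩
      simp only [MR]
      rw [indicator_of_mem h2, cl_eq h1, ← ENNReal.ofReal_mul (by positivity)]
    · exact hint _ c2
    · refine Filter.Eventually.of_forall fun τ => ?_
      have h1 := hCp τ
      have h2 := h0 _ (cl_mem' hαm (S α τ))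
      show 0 ≤ 1 / C α τ ^ (d + 2) * M (cl α (S α τ))
      positivity
  rw [e1, e2]
  exact ENNReal.ofReal_le_ofReal key2

/-- the hypothesis for all angles -/
def KeyH (d : ℕ) (R : ℝ) (M : ℝ → ℝ) : Prop := ∀ α ∈ Ioo 0 R,
  0 ≤ ∫ τ in (0 : ℝ)..π, 1 / C α τ ^ (d + 2) * (M (cl α (S α τ)) - C α τ ^ d)

lemma weighted (hM : ContinuousOn M (Ico 0 R)) (h0 : ∀ s ∈ Ico 0 R, 0 ≤ M s)
    (hR : R ≤ π / 2) (hK : KeyH d R M) {ρ : ℝ} (hρ : ρ ∈ Ioo 0 R) :
    ∫⁻ s in Ioo 0 ρ, ENNReal.ofReal (1 / Real.cos s ^ (d + 1)) * ENNReal.ofReal (Real.cos s ^ d) ≤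
      ∫⁻ s in Ioo 0 ρ, ENNReal.ofReal (1 / Real.cos s ^ (d + 1)) * MR R M s := by
  have hρ2 := mem_half hR hρ
  have hI : T_INV2 := Pool.Agent.Y908.HC.t_INV2
  have h1 := hI d ρ hρ2 (fun s => ENNReal.ofReal (Real.cos s ^ d)) (by fun_prop)
  have h2 := hI d ρ hρ2 _ (measurable_MR hM)
  have h3 : ENNReal.ofReal π * (∫⁻ s in Ioo 0 ρ, ENNReal.ofReal (1 / Real.cos s ^ (d + 1)) *
      ENNReal.ofReal (Real.cos s ^ d)) ≤
      ENNReal.ofReal π * ∫⁻ s in Ioo 0 ρ, ENNReal.ofReal (1 / Real.cos s ^ (d + 1)) *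
        MR R M s := by
    rw [← h1, ← h2]
    refine setLIntegral_mono' measurableSet_Ioo fun α hα => ?_
    exact mul_le_mul_right (one_alpha hM h0 hR ⟨hα.1, hα.2.trans hρ.2⟩
      (hK α ⟨hα.1, hα.2.trans hρ.2⟩)) _
  have hπ : ENNReal.ofReal π ≠ 0 := by
    rw [Ne, ENNReal.ofReal_eq_zero, not_le]
    exact Real.pi_pos
  exact (ENNReal.mul_le_mul_iff_right hπ ENNReal.ofReal_ne_top).1 h3

/-- The weighted difference of the densities. -/
noncomputable def ww (d : ℕ) (M : ℝ → ℝ) (A s : ℝ) : ℝ :=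
  1 / Real.cos (cl A s) ^ (d + 1) * (M (cl A s) - Real.cos (cl A s) ^ d)

lemma ww_cont (hM : ContinuousOn M (Ico 0 R)) {A : ℝ} (hR : R ≤ π / 2)
    (hA : A ∈ Ico 0 R) : Continuous (ww d M A) :=
  (inv_cos_cont hR hA).mul
    ((M_cl_cont hM hA).sub ((Real.continuous_cos.comp (continuous_cl A)).pow _))

lemma ww_eq {A B t : ℝ} (hA : t ∈ Icc 0 A) (hB : t ∈ Icc 0 B) :
    ww d M A t = ww d M B t := by
  unfold ww
  rw [cl_eq hA, cl_eq hB]

lemma H_eq {A B s : ℝ} (hA : s ∈ Icc 0 A) (hB : s ∈ Icc 0 B) :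
    ∫ t in (0 : ℝ)..s, ww d M A t = ∫ t in (0 : ℝ)..s, ww d M B t := by
  refine intervalIntegral.integral_congr fun t ht => ?_
  rw [uIcc_of_le hA.1] at ht
  exact ww_eq ⟨ht.1, ht.2.trans hA.2⟩ ⟨ht.1, ht.2.trans hB.2⟩

lemma H_nonneg (hM : ContinuousOn M (Ico 0 R)) (h0 : ∀ s ∈ Ico 0 R, 0 ≤ M s)
    (hR : R ≤ π / 2) (hK : KeyH d R M) {A : ℝ} (hAm : A ∈ Ico 0 R) {ρ : ℝ} (hρ : ρ ∈ Icc 0 A) :
    0 ≤ ∫ t in (0 : ℝ)..ρ, ww d M A t := by
  rcases hρ.1.eq_or_lt with h0' | h0'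
  · rw [← h0', intervalIntegral.integral_same]
  have hρR : ρ ∈ Ioo 0 R := ⟨h0', hρ.2.trans_lt hAm.2⟩
  have key := weighted hM h0 hR hK hρR
  have hint : ∀ f : ℝ → ℝ, Continuous f → Integrable f (volume.restrict (Ioo 0 ρ)) :=
    fun f hf => (hf.integrableOn_Icc (a := 0) (b := ρ)).mono_set Ioo_subset_Icc_self
  have c1 : Continuous (fun s => 1 / Real.cos (cl A s) ^ (d + 1) * Real.cos (cl A s) ^ d) :=
    (inv_cos_cont hR hAm).mul ((Real.continuous_cos.comp (continuous_cl A)).pow _)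
  have c2 : Continuous (fun s => 1 / Real.cos (cl A s) ^ (d + 1) * M (cl A s)) :=
    (inv_cos_cont hR hAm).mul (M_cl_cont hM hAm)
  have p1 : ∀ s, 0 ≤ 1 / Real.cos (cl A s) ^ (d + 1) * Real.cos (cl A s) ^ d := fun s => by
    have := cos_cl_pos hR hAm s
    positivity
  have p2 : ∀ s, 0 ≤ 1 / Real.cos (cl A s) ^ (d + 1) * M (cl A s) := fun s => by
    have h1 := cos_cl_pos hR hAm s
    have h2 := h0 _ (cl_mem' hAm s)
    positivity
  have e1 : ∫⁻ s in Ioo 0 ρ, ENNReal.ofReal (1 / Real.cos s ^ (d + 1)) *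
      ENNReal.ofReal (Real.cos s ^ d) =
      ENNReal.ofReal (∫ s in Ioo 0 ρ, 1 / Real.cos (cl A s) ^ (d + 1) * Real.cos (cl A s) ^ d) := by
    rw [ofReal_integral_eq_lintegral_ofReal (hint _ c1) (Filter.Eventually.of_forall p1)]
    refine setLIntegral_congr_fun measurableSet_Ioo fun s hs => ?_
    have h1 := cos_cl_pos hR hAm s
    have h2 : cl A s = s := cl_eq ⟨hs.1.le, hs.2.le.trans hρ.2⟩
    rw [h2] at h1
    simp only [h2]
    rw [← ENNReal.ofReal_mul (by positivity)]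
  have e2 : ∫⁻ s in Ioo 0 ρ, ENNReal.ofReal (1 / Real.cos s ^ (d + 1)) * MR R M s =
      ENNReal.ofReal (∫ s in Ioo 0 ρ, 1 / Real.cos (cl A s) ^ (d + 1) * M (cl A s)) := by
    rw [ofReal_integral_eq_lintegral_ofReal (hint _ c2) (Filter.Eventually.of_forall p2)]
    refine setLIntegral_congr_fun measurableSet_Ioo fun s hs => ?_
    have h1 := cos_cl_pos hR hAm s
    have h2 : cl A s = s := cl_eq ⟨hs.1.le, hs.2.le.trans hρ.2⟩
    rw [h2] at h1
    have h3 : s ∈ Ico 0 R := ⟨hs.1.le, hs.2.trans hρR.2⟩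
    simp only [h2, MR]
    rw [indicator_of_mem h3, ← ENNReal.ofReal_mul (by positivity)]
  rw [e1, e2] at key
  have key2 := (ENNReal.ofReal_le_ofReal_iff (integral_nonneg p2)).1 key
  rw [intervalIntegral.integral_of_le hρ.1, integral_Ioc_eq_integral_Ioo]
  have e3 : ∫ s in Ioo 0 ρ, ww d M A s =
      ∫ s in Ioo 0 ρ, (1 / Real.cos (cl A s) ^ (d + 1) * M (cl A s) -
        1 / Real.cos (cl A s) ^ (d + 1) * Real.cos (cl A s) ^ d) :=
    integral_congr_ae (Filter.Eventually.of_forall fun s => by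
      show 1 / Real.cos (cl A s) ^ (d + 1) * (M (cl A s) - Real.cos (cl A s) ^ d) = _
      ring)
  rw [e3, integral_sub (hint _ c2) (hint _ c1)]
  linarith

/-- The excess. -/
noncomputable def eps (d : ℕ) (M : ℝ → ℝ) (ρ : ℝ) : ℝ :=
  ∫ s in (0 : ℝ)..ρ, (d + 1) * Real.cos s ^ d * Real.sin s * ∫ t in (0 : ℝ)..s, ww d M ρ t

lemma mean_int_ge (hM : ContinuousOn M (Ico 0 R)) (h0 : ∀ s ∈ Ico 0 R, 0 ≤ M s)
    (hR : R ≤ π / 2) (hK : KeyH d R M) {ρ A : ℝ} (hρ : 0 ≤ ρ) (hρA : ρ ≤ A) (hAR : A < R) :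
    eps d M ρ + ∫ s in (0 : ℝ)..A, Real.cos s ^ d ≤ ∫ s in (0 : ℝ)..A, M (cl A s) := by
  have hAm : A ∈ Ico 0 R := ⟨hρ.trans hρA, hAR⟩
  have h1 := parts_ge (d := d) (ww_cont (d := d) hM hR hAm) hρ hρA (hAR.le.trans hR)
    (fun s hs => H_nonneg hM h0 hR hK hAm hs)
  have h2 : eps d M ρ = ∫ s in (0 : ℝ)..ρ, (d + 1) * Real.cos s ^ d * Real.sin s *
      ∫ t in (0 : ℝ)..s, ww d M A t := by
    unfold eps
    refine intervalIntegral.integral_congr fun s hs => ?_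
    rw [uIcc_of_le hρ] at hs
    rw [H_eq hs ⟨hs.1, hs.2.trans hρA⟩]
  have h3 : ∫ s in (0 : ℝ)..A, Real.cos s ^ (d + 1) * ww d M A s =
      ∫ s in (0 : ℝ)..A, (M (cl A s) - Real.cos s ^ d) := by
    refine intervalIntegral.integral_congr fun s hs => ?_
    rw [uIcc_of_le hAm.1] at hs
    have h4 := cos_cl_pos hR hAm s
    simp only [ww]
    rw [cl_eq hs] at h4 ⊢
    field_simp
  have c1 : IntervalIntegrable (fun s => M (cl A s)) volume 0 A :=
    (M_cl_cont hM hAm).intervalIntegrable 0 A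
  have c2 : IntervalIntegrable (fun s => Real.cos s ^ d) volume 0 A :=
    (Real.continuous_cos.pow d).intervalIntegrable 0 A
  rw [h3, intervalIntegral.integral_sub c1 c2, ← h2] at h1
  linarith

/-- The main inequality with the excess. -/
lemma lint_ge (hM : ContinuousOn M (Ico 0 R)) (h0 : ∀ s ∈ Ico 0 R, 0 ≤ M s)
    (hR : R ≤ π / 2) (hK : KeyH d R M) {ρ : ℝ} (hρ : 0 ≤ ρ) (hρR : ρ < R) :
    ENNReal.ofReal (eps d M ρ + ∫ s in (0 : ℝ)..R, Real.cos s ^ d) ≤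
      ∫⁻ s in Ioo 0 R, MR R M s := by
  have hH : ∀ s : ℝ, HasDerivAt (fun A => ∫ s in (0 : ℝ)..A, Real.cos s ^ d) (Real.cos s ^ d) s :=
    fun s => (Real.continuous_cos.pow d).integral_hasStrictDerivAt 0 s |>.hasDerivAt
  have hc : ContinuousAt (fun A => ENNReal.ofReal (eps d M ρ + ∫ s in (0 : ℝ)..A, Real.cos s ^ d))
      R := by
    refine ENNReal.continuous_ofReal.continuousAt.comp ?_
    exact continuousAt_const.add (hH R).continuousAt
  refine le_of_tendsto (hc.tendsto.mono_left (nhdsWithin_le_nhds (s := Iio R))) ?_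
  filter_upwards [Ioo_mem_nhdsLT hρR] with A hAA
  have hAm : A ∈ Ico 0 R := ⟨hρ.trans hAA.1.le, hAA.2⟩
  have h1 := mean_int_ge hM h0 hR hK hρ hAA.1.le hAA.2
  refine (ENNReal.ofReal_le_ofReal h1).trans ?_
  rw [intervalIntegral.integral_of_le hAm.1, integral_Ioc_eq_integral_Ioo,
    ofReal_integral_eq_lintegral_ofReal]
  · refine le_trans (le_of_eq ?_) (lintegral_mono_set (Ioo_subset_Ioo_right hAA.2.le))
    refine setLIntegral_congr_fun measurableSet_Ioo fun s hs => ?_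
    have h3 : s ∈ Ico 0 R := ⟨hs.1.le, hs.2.trans hAA.2⟩
    simp only [MR]
    rw [indicator_of_mem h3, cl_eq ⟨hs.1.le, hs.2.le⟩]
  · exact ((M_cl_cont hM hAm).integrableOn_Icc (a := 0) (b := A)).mono_set Ioo_subset_Icc_self
  · exact Filter.Eventually.of_forall fun s => h0 _ (cl_mem' hAm s)

lemma eps_nonneg (hM : ContinuousOn M (Ico 0 R)) (h0 : ∀ s ∈ Ico 0 R, 0 ≤ M s)
    (hR : R ≤ π / 2) (hK : KeyH d R M) {ρ : ℝ} (hρ : ρ ∈ Ico 0 R) : 0 ≤ eps d M ρ := by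
  refine intervalIntegral.integral_nonneg hρ.1 fun s hs => ?_
  have hcos : 0 ≤ Real.cos s := Real.cos_nonneg_of_mem_Icc
    ⟨by linarith [hs.1, Real.pi_pos], by linarith [hs.2, hρ.2]⟩
  have hsin : 0 ≤ Real.sin s := Real.sin_nonneg_of_nonneg_of_le_pi hs.1
    (by linarith [hs.2, hρ.2, Real.pi_pos])
  have hH := H_nonneg hM h0 hR hK hρ hs
  positivity

theorem s_CHAIN : Pool.Agent.L7h41.CS.S_CHAIN := by
  intro d _ R hR0 hR M hM h0 hK'
  have hK : KeyH d R M := hK'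
  have eM : ∫⁻ s in Ioo 0 R, ENNReal.ofReal (M s) = ∫⁻ s in Ioo 0 R, MR R M s := by
    refine setLIntegral_congr_fun measurableSet_Ioo fun s hs => ?_
    have hs' : s ∈ Ico 0 R := ⟨hs.1.le, hs.2⟩
    simp only [MR]
    rw [indicator_of_mem hs']
  rw [eM]
  constructor
  · refine le_trans ?_ (lint_ge hM h0 hR hK le_rfl hR0)
    refine ENNReal.ofReal_le_ofReal ?_
    have := eps_nonneg hM h0 hR hK (ρ := 0) ⟨le_rfl, hR0⟩
    linarith
  · intro h1
    have hI0 : 0 ≤ ∫ θ in (0 : ℝ)..R, Real.cos θ ^ d := by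
      refine intervalIntegral.integral_nonneg hR0.le fun s hs => ?_
      exact pow_nonneg (Real.cos_nonneg_of_mem_Icc
        ⟨by linarith [hs.1, Real.pi_pos], by linarith [hs.2]⟩) _
    -- the excess vanishes
    have h2 : ∀ ρ ∈ Ioo 0 R, ∫ t in (0 : ℝ)..ρ, ww d M ρ t = 0 := by
      intro ρ hρ
      have hρm : ρ ∈ Ico 0 R := ⟨hρ.1.le, hρ.2⟩
      have h3 := lint_ge hM h0 hR hK hρ.1.le hρ.2
      rw [h1, ENNReal.ofReal_le_ofReal_iff hI0] at h3
      have h4 : eps d M ρ ≤ 0 := by linarith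
      have h5 : 0 ≤ ∫ t in (0 : ℝ)..ρ, ww d M ρ t :=
        H_nonneg hM h0 hR hK hρm ⟨hρ.1.le, le_rfl⟩
      by_contra hne
      have h6 : 0 < ∫ t in (0 : ℝ)..ρ, ww d M ρ t := lt_of_le_of_ne h5 (Ne.symm hne)
      have h7 := parts_pos (d := d) (ww_cont (d := d) hM hR hρm) hρ.1 (hρ.2.trans_le hR)
        (fun s hs => H_nonneg hM h0 hR hK hρm hs) h6
      exact absurd h7 (not_lt.2 h4)
    intro s hs
    obtain ⟨A, hA1, hA2⟩ := exists_between hs.2
    have hAm : A ∈ Ico 0 R := ⟨(hs.1.trans hA1).le, hA2⟩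
    have h4 := eq_zero_of_prim (ww_cont (d := d) hM hR hAm) (R := A) (fun t ht => by
      rw [H_eq (B := t) ⟨ht.1.le, ht.2.le⟩ ⟨ht.1.le, le_rfl⟩]
      exact h2 t ⟨ht.1, ht.2.trans hA2⟩) s ⟨hs.1, hA1⟩
    have h5 := cos_cl_pos hR hAm s
    unfold ww at h4
    rw [cl_eq ⟨hs.1.le, hA1.le⟩] at h4 h5
    have h6 : 1 / Real.cos s ^ (d + 1) ≠ 0 := by positivity
    have h7 := (mul_eq_zero.1 h4).resolve_left h6
    linarith

end Pool.Agent.L7h17.CS
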